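import Pool.Agent.Helper638.MS.Defs
import Pool.Agent.Helper638.MS.P_edge_bound
import Pool.Agent.Helper638.MS.P_even_case
import Pool.Agent.Helper638.MS.P_odd_case

set_option autoImplicit false

namespace Pool.MS
open Finset


theorem ms_internal_complete {V : Type} [Fintype V] [DecidableEq V] (H : SimpleGraph V)
    [DecidableRel H.Adj] (v : V) (h1 : ∀ a b, H.Adj v a → H.Adj v b → ¬ H.Adj a b)
    (h2 : ∀ a b, ¬ H.Adj v a → ¬ H.Adj v b → ¬ H.Adj a b)
    (hE : H.edgeFinset.card = H.degree v * (Fintype.card V - H.degree v))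
    (x y : V) (hx : H.Adj v x) (hy : ¬ H.Adj v y) : H.Adj x y := by
  by_contra hxy
  set N : Finset V := H.neighborFinset v with hN
  set C : Finset V := Finset.univ \ N with hC
  have hNmem : ∀ a, a ∈ N ↔ H.Adj v a := by
    intro a
    rw [hN, SimpleGraph.mem_neighborFinset]
  have hCmem : ∀ a, a ∈ C ↔ ¬ H.Adj v a := by
    intro a
    rw [hC, Finset.mem_sdiff, hNmem]
    simp
  have hNcard : N.card = H.degree v := rfl
  have hCcard : C.card = Fintype.card V - H.degree v := by
    rw [hC, Finset.card_univ_diff, hNcard]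
  set P : Finset (V × V) := (N ×ˢ C).filter (fun p => H.Adj p.1 p.2) with hP
  have hsub : H.edgeFinset ⊆ P.image (fun p => s(p.1, p.2)) := by
    intro e he
    rw [SimpleGraph.mem_edgeFinset] at he
    induction e using Sym2.ind with
    | _ a b =>
      have hab : H.Adj a b := he
      rw [Finset.mem_image]
      by_cases ha : H.Adj v a
      · by_cases hb : H.Adj v b
        · exact absurd hab (h1 a b ha hb)
        · refine ⟨(a, b), ?_, rfl⟩
          rw [hP, Finset.mem_filter, Finset.mem_product]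
          exact ⟨⟨(hNmem a).2 ha, (hCmem b).2 hb⟩, hab⟩
      · by_cases hb : H.Adj v b
        · refine ⟨(b, a), ?_, Sym2.eq_swap⟩
          rw [hP, Finset.mem_filter, Finset.mem_product]
          exact ⟨⟨(hNmem b).2 hb, (hCmem a).2 ha⟩, hab.symm⟩
        · exact absurd hab (h2 a b ha hb)
  have hlt : P.card < (N ×ˢ C).card := by
    apply Finset.card_lt_card
    rw [hP, Finset.filter_ssubset]
    exact ⟨(x, y), Finset.mem_product.2 ⟨(hNmem x).2 hx, (hCmem y).2 hy⟩, hxy⟩
  have hle : H.edgeFinset.card ≤ P.card :=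
    (Finset.card_le_card hsub).trans Finset.card_image_le
  rw [Finset.card_product, hNcard, hCcard] at hlt
  omega

theorem ms_internal {V : Type} [Fintype V] [DecidableEq V] (H : SimpleGraph V) [DecidableRel H.Adj]
    (hd : Diam2 H) (hc : Crit H) (hn : 2 ≤ Fintype.card V) :
    H.edgeFinset.card ≤ Fintype.card V ^ 2 / 4 ∧
      (H.edgeFinset.card = Fintype.card V ^ 2 / 4 → ∃ v a, H.Adj v a ∧
        ∀ x y, (H.Adj v x ∧ ¬ H.Adj v y) → H.Adj x y) := by
  haveI : Nonempty V := Fintype.card_pos_iff.1 (by omega)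
  constructor
  · obtain ⟨v, hv⟩ := H.exists_maximal_degree_vertex
    have hD : ∀ x, H.degree x ≤ H.degree v := by
      intro x
      rw [← hv]
      exact H.degree_le_maxDegree x
    refine (edge_bound H hc v hD).trans ?_
    have hlt : H.degree v < Fintype.card V := H.degree_lt_card_verts v
    obtain ⟨e, he⟩ : ∃ e, Fintype.card V = H.degree v + e := ⟨_, (Nat.add_sub_cancel' hlt.le).symm⟩
    rw [he, Nat.add_sub_cancel_left, Nat.le_div_iff_mul_le (by norm_num)]
    zify
    nlinarith [sq_nonneg ((H.degree v : ℤ) - e)]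
  · intro hE
    have hfin : ∀ v : V, 1 ≤ H.degree v → (∀ a b, H.Adj v a → H.Adj v b → ¬ H.Adj a b) →
        (∀ a b, ¬ H.Adj v a → ¬ H.Adj v b → ¬ H.Adj a b) →
        H.edgeFinset.card = H.degree v * (Fintype.card V - H.degree v) →
        ∃ v a, H.Adj v a ∧ ∀ x y, (H.Adj v x ∧ ¬ H.Adj v y) → H.Adj x y := by
      intro v hv h1 h2 h3
      have : 0 < (H.neighborFinset v).card := hv
      obtain ⟨a, ha⟩ := Finset.card_pos.1 this
      rw [SimpleGraph.mem_neighborFinset] at ha
      exact ⟨v, a, ha, fun x y hxy => ms_internal_complete H v h1 h2 h3 x y hxy.1 hxy.2⟩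
    rcases Nat.even_or_odd' (Fintype.card V) with ⟨m, hm | hm⟩
    · have hE' : H.edgeFinset.card = m * m := by
        rw [hE, hm]
        have : (2 * m) ^ 2 = (m * m) * 4 := by ring
        rw [this, Nat.mul_div_cancel _ (by norm_num)]
      obtain ⟨v, hv, h1, h2⟩ := even_case H hc m (by omega) hm hE'
      refine hfin v (by omega) h1 h2 ?_
      rw [hE', hv, hm]
      congr 1
      omega
    · have hE' : H.edgeFinset.card = m * (m + 1) := by
        rw [hE, hm]
        have : (2 * m + 1) ^ 2 = 1 + (m * (m + 1)) * 4 := by ring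
        rw [this, Nat.add_mul_div_right _ _ (by norm_num)]
        norm_num
      obtain ⟨v, hv, h1, h2⟩ := odd_case H hd hc m (by omega) hm hE'
      refine hfin v (by omega) h1 h2 ?_
      rw [hE', hv, hm, mul_comm]
      congr 1
      omega

end Pool.MS
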