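import Pool.Agent.Helper638.MS.Defs

set_option autoImplicit false

namespace Pool.MS
open Finset


theorem tot_crit_mem {V : Type} {S : Finset V} (hS : S.card ≤ 2) {a b y : V} (ha : a ∈ S)
    (hb : b ∈ S) (hab : a ≠ b) (hy : y ∈ S) : y = a ∨ y = b := by
  by_contra h
  push Not at h
  have : 2 < S.card := Finset.two_lt_card.mpr ⟨a, ha, b, hb, y, hy, hab, Ne.symm h.1, Ne.symm h.2⟩
  omega

theorem tot_crit {V : Type} [Fintype V] (G : SimpleGraph V)
    (h2 : ∀ S : Finset V, S.card ≤ 2 → ¬ ∀ x : V, ∃ y ∈ S, G.Adj x y)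
    (hc : ∀ u v : V, u ≠ v → ¬ G.Adj u v → ∃ S : Finset V, S.card ≤ 2 ∧
      ∀ x : V, ∃ y ∈ S, G.Adj x y ∨ (x = u ∧ y = v) ∨ (x = v ∧ y = u)) : Crit Gᶜ := by
  intro u v huv
  rw [SimpleGraph.compl_adj] at huv
  obtain ⟨hne, hnadj⟩ := huv
  obtain ⟨S, hS, hx⟩ := hc u v hne hnadj
  have hboth : u ∈ S → v ∈ S → ∀ c, ¬ (Gᶜ.Adj u c ∧ Gᶜ.Adj c v) := by
    intro hu hv c hcc
    rw [SimpleGraph.compl_adj, SimpleGraph.compl_adj] at hcc
    obtain ⟨⟨h1, h3⟩, h4, h5⟩ := hcc
    obtain ⟨y, hy, h6⟩ := hx c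
    rcases tot_crit_mem hS hu hv hne hy with rfl | rfl
    · rcases h6 with h6 | h6 | h6
      · exact h3 h6.symm
      · exact h1 h6.1.symm
      · exact h4 h6.1
    · rcases h6 with h6 | h6 | h6
      · exact h5 h6
      · exact h1 h6.1.symm
      · exact h4 h6.1
  obtain ⟨x, hxS⟩ := not_forall.mp (h2 S hS)
  push Not at hxS
  obtain ⟨y, hy, h6⟩ := hx x
  rcases h6 with h6 | ⟨rfl, rfl⟩ | ⟨rfl, rfl⟩
  · exact absurd h6 (hxS y hy)
  · -- x = u, v = y ∈ S
    obtain ⟨b, hb, h7⟩ := hx y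
    rcases h7 with h7 | ⟨h7, _⟩ | ⟨_, h7⟩
    · right; right
      have hyb : y ≠ b := h7.ne
      have hxb : x ≠ b := by
        rintro rfl
        exact hnadj h7.symm
      refine ⟨b, hyb, ?_, ?_, ?_, ?_⟩
      · rw [SimpleGraph.compl_adj]; exact fun h => h.2 h7
      · rw [SimpleGraph.compl_adj]; exact ⟨hne.symm, fun h => hnadj h.symm⟩
      · rw [SimpleGraph.compl_adj]; exact ⟨hxb, hxS b hb⟩
      · intro c' h8 h9
        rw [SimpleGraph.compl_adj] at h8 h9
        obtain ⟨w, hw, h10⟩ := hx c'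
        rcases h10 with h10 | h10 | h10
        · rcases tot_crit_mem hS hy hb hyb hw with rfl | rfl
          · exact absurd h10.symm h8.2
          · exact absurd h10 h9.2
        · exact h10.1
        · exact absurd h10.1.symm h8.1
    · exact absurd h7.symm hne
    · subst h7
      exact Or.inl (hboth hb hy)
  · -- x = v, u = y ∈ S
    obtain ⟨b, hb, h7⟩ := hx y
    rcases h7 with h7 | ⟨_, h7⟩ | ⟨h7, _⟩
    · right; left
      have hyb : y ≠ b := h7.ne
      have hxb : x ≠ b := by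
        rintro rfl
        exact hnadj h7
      refine ⟨b, hyb, ?_, ?_, ?_, ?_⟩
      · rw [SimpleGraph.compl_adj]; exact fun h => h.2 h7
      · rw [SimpleGraph.compl_adj]; exact ⟨hne, hnadj⟩
      · rw [SimpleGraph.compl_adj]; exact ⟨hxb, hxS b hb⟩
      · intro c' h8 h9
        rw [SimpleGraph.compl_adj] at h8 h9
        obtain ⟨w, hw, h10⟩ := hx c'
        rcases h10 with h10 | h10 | h10
        · rcases tot_crit_mem hS hy hb hyb hw with rfl | rfl
          · exact absurd h10.symm h8.2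
          · exact absurd h10 h9.2
        · exact absurd h10.1.symm h8.1
        · exact h10.1
    · subst h7
      exact Or.inl (hboth hy hb)
    · exact absurd h7 hne

end Pool.MS
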