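import Pool.Agent.Helper638.MS.Defs

set_option autoImplicit false

namespace Pool.MS
open Finset


theorem tot_diam {V : Type} [Fintype V] (G : SimpleGraph V)
    (h2 : ∀ S : Finset V, S.card ≤ 2 → ¬ ∀ x : V, ∃ y ∈ S, G.Adj x y) : Diam2 Gᶜ := by
  classical
  intro x y hxy hn
  rw [SimpleGraph.compl_adj] at hn
  have hadj : G.Adj x y := by
    by_contra h
    exact hn ⟨hxy, h⟩
  have h := h2 {x, y} Finset.card_le_two
  push Not at h
  obtain ⟨c, hc⟩ := h
  have hcx : ¬ G.Adj c x := hc x (by simp)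
  have hcy : ¬ G.Adj c y := hc y (by simp)
  refine ⟨c, ?_, ?_⟩
  · rw [SimpleGraph.compl_adj]
    refine ⟨?_, fun h => hcx h.symm⟩
    rintro rfl
    exact hcy hadj
  · rw [SimpleGraph.compl_adj]
    refine ⟨?_, hcy⟩
    rintro rfl
    exact hcx hadj.symm

end Pool.MS
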