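import Pool.Agent.Helper638.MS.Defs

set_option autoImplicit false

namespace Pool.MS
open Finset


theorem tot_nobip {V : Type} [Fintype V] [DecidableEq V] (G : SimpleGraph V)
    (h3 : ∃ S : Finset V, S.card ≤ 3 ∧ ∀ x : V, ∃ y ∈ S, G.Adj x y)
    (v a : V) (hva : Gᶜ.Adj v a)
    (hbip : ∀ x y, (Gᶜ.Adj v x ∧ ¬ Gᶜ.Adj v y) → Gᶜ.Adj x y) : False := by
  obtain ⟨S, hS, hdom⟩ := h3
  have hno : ∀ x y, Gᶜ.Adj v x → ¬ Gᶜ.Adj v y → ¬ G.Adj x y := by
    intro x y hx hy h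
    have := hbip x y ⟨hx, hy⟩
    rw [SimpleGraph.compl_adj] at this
    exact this.2 h
  obtain ⟨y, hyS, hay⟩ := hdom a
  have hyN : Gᶜ.Adj v y := by
    by_contra h; exact hno a y hva h hay
  obtain ⟨y', hyS', hyy⟩ := hdom y
  have hyN' : Gᶜ.Adj v y' := by
    by_contra h; exact hno y y' hyN h hyy
  obtain ⟨z, hzS, hvz⟩ := hdom v
  have hzN : ¬ Gᶜ.Adj v z := by
    intro h
    rw [SimpleGraph.compl_adj] at h
    exact h.2 hvz
  obtain ⟨z', hzS', hzz⟩ := hdom z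
  have hzN' : ¬ Gᶜ.Adj v z' := by
    intro h
    exact hno z' z h hzN hzz.symm
  have n1 : y ≠ y' := hyy.ne
  have n2 : z ≠ z' := hzz.ne
  have n3 : y ≠ z := fun h => hzN (h ▸ hyN)
  have n4 : y ≠ z' := fun h => hzN' (h ▸ hyN)
  have n5 : y' ≠ z := fun h => hzN (h ▸ hyN')
  have n6 : y' ≠ z' := fun h => hzN' (h ▸ hyN')
  have hcard : ({y, y', z, z'} : Finset V).card = 4 := by
    rw [Finset.card_insert_of_notMem, Finset.card_insert_of_notMem, Finset.card_pair n2]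
    · simp [n5, n6]
    · simp [n1, n3, n4]
  have hsub : ({y, y', z, z'} : Finset V) ⊆ S := by
    intro x hx
    simp only [Finset.mem_insert, Finset.mem_singleton] at hx
    rcases hx with rfl | rfl | rfl | rfl <;> assumption
  have := Finset.card_le_card hsub
  omega

end Pool.MS
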