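import Pool.Agent.Helper638.MS.Defs
import Pool.Agent.Helper638.MS.P_tot_diam
import Pool.Agent.Helper638.MS.P_tot_crit
import Pool.Agent.Helper638.MS.P_tot_nobip
import Pool.Agent.Helper638.MS.P_ms_internal

set_option autoImplicit false

namespace Pool.MS
open Finset


theorem tot_lt_aux_card {V : Type} [Fintype V] [DecidableEq V] (G : SimpleGraph V)
    [DecidableRel G.Adj] :
    G.edgeFinset.card + Gᶜ.edgeFinset.card = Fintype.card V * (Fintype.card V - 1) / 2 := by
  have hun : G.edgeFinset ∪ Gᶜ.edgeFinset = (⊤ : SimpleGraph V).edgeFinset := by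
    ext e
    induction e with
    | _ x y =>
      simp only [Finset.mem_union, SimpleGraph.mem_edgeFinset, SimpleGraph.mem_edgeSet,
        SimpleGraph.compl_adj, SimpleGraph.top_adj]
      constructor
      · rintro (h | h)
        · exact h.ne
        · exact h.1
      · intro h
        by_cases hG : G.Adj x y
        · exact Or.inl hG
        · exact Or.inr ⟨h, hG⟩
  have hdisj : Disjoint G.edgeFinset Gᶜ.edgeFinset := by
    rw [Finset.disjoint_left]
    intro e
    induction e with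
    | _ x y =>
      simp only [SimpleGraph.mem_edgeFinset, SimpleGraph.mem_edgeSet, SimpleGraph.compl_adj]
      intro h h'
      exact h'.2 h
  rw [← Finset.card_union_of_disjoint hdisj, hun,
    SimpleGraph.card_edgeFinset_top_eq_card_choose_two, Nat.choose_two_right]

theorem tot_lt {V : Type} [Fintype V] [DecidableEq V] (G : SimpleGraph V) [DecidableRel G.Adj]
    (h3 : ∃ S : Finset V, S.card ≤ 3 ∧ ∀ x : V, ∃ y ∈ S, G.Adj x y)
    (hn : Nonempty V)
    (h2 : ∀ S : Finset V, S.card ≤ 2 → ¬ ∀ x : V, ∃ y ∈ S, G.Adj x y)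
    (hc : ∀ u v : V, u ≠ v → ¬ G.Adj u v → ∃ S : Finset V, S.card ≤ 2 ∧
      ∀ x : V, ∃ y ∈ S, G.Adj x y ∨ (x = u ∧ y = v) ∨ (x = v ∧ y = u)) :
    Fintype.card V * (Fintype.card V - 1) / 2 < G.edgeFinset.card + Fintype.card V ^ 2 / 4 ∧
      3 ≤ Fintype.card V := by
  have hV3 : 3 ≤ Fintype.card V := by
    by_contra hlt
    obtain ⟨S, _, hS⟩ := h3
    apply h2 Finset.univ
    · rw [Finset.card_univ]; omega
    · intro x
      obtain ⟨y, _, hy⟩ := hS x
      exact ⟨y, Finset.mem_univ _, hy⟩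
  have hM := ms_internal Gᶜ (tot_diam G h2) (tot_crit G h2 hc) (by omega)
  have hcard := tot_lt_aux_card G
  refine ⟨?_, hV3⟩
  have hne : Gᶜ.edgeFinset.card ≠ Fintype.card V ^ 2 / 4 := by
    intro he
    obtain ⟨v, a, hva, hb⟩ := hM.2 he
    exact tot_nobip G h3 v a hva hb
  have h1 := hM.1
  have h4 : Gᶜ.edgeFinset.card < Fintype.card V ^ 2 / 4 := lt_of_le_of_ne h1 hne
  rw [← hcard]
  exact Nat.add_lt_add_left h4 _

end Pool.MS
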